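import Mathlib

set_option autoImplicit false

open Matrix Matrix.ProjGenLinGroup

namespace Pool.Agent.Results.MP_21a573_al.PGL2

/-- The upper unitriangular matrix with corner entry t. -/
def uni {K : Type} [Field K] (t : K) : GL (Fin 2) K :=
  ⟨!![1, t; 0, 1], !![1, -t; 0, 1], by simp [Matrix.one_fin_two], by simp [Matrix.one_fin_two]⟩

/-- The rational points of the unipotent radical of the Borel subgroup of PGL2 that is
conjugate to the upper triangular one by γ. -/
def rad {F : Type} [Field F] (γ : ProjGenLinGroup (Fin 2) F) : Set (ProjGenLinGroup (Fin 2) F) :=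
  Set.range fun t : F => γ * mk (uni t) * γ⁻¹

/-- Cuspidal functions on PGL2(F). -/
def Cuspidal {F : Type} [Field F] (φ : ProjGenLinGroup (Fin 2) F → ℂ) : Prop :=
  ∀ g γ : ProjGenLinGroup (Fin 2) F, ∑ᶠ u ∈ rad γ, φ (g * u) = 0

/-- The sum condition that defines the space S_w on a subset O of PGL2(F). -/
def WeakCusp {F : Type} [Field F] (O : Set (ProjGenLinGroup (Fin 2) F))
    (f : ProjGenLinGroup (Fin 2) F → ℂ) : Prop :=
  ∀ g γ : ProjGenLinGroup (Fin 2) F, (∀ u ∈ rad γ, g * u ∈ O) → ∑ᶠ u ∈ rad γ, f (g * u) = 0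

/-- The preimage in GL2(K) of the conjugacy class of x in PGL2(K), as a set of matrices. -/
def cone {K : Type} [Field K] (x : GL (Fin 2) K) : Set (Matrix (Fin 2) (Fin 2) K) :=
  {m | ∃ (c : Kˣ) (γ : GL (Fin 2) K), m = (c : K) • (γ * x * γ⁻¹).val}

/-- The F-points of the Zariski closure of the geometric conjugacy class of x in PGL2. -/
def closurePts (F : Type) [Field F] (x : GL (Fin 2) (AlgebraicClosure F)) :
    Set (ProjGenLinGroup (Fin 2) F) :=
  {y | ∃ g : GL (Fin 2) F, mk g = y ∧
    ∀ p : MvPolynomial (Fin 2 × Fin 2) (AlgebraicClosure F),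
      (∀ m ∈ cone x, MvPolynomial.eval (fun ij => m ij.1 ij.2) p = 0) →
      MvPolynomial.eval (fun ij => algebraMap F (AlgebraicClosure F) (g.val ij.1 ij.2)) p = 0}

section
variable {F : Type} [Field F]

def disc (m : Matrix (Fin 2) (Fin 2) F) : F := m.trace ^ 2 - 4 * m.det

theorem disc_eq (m : Matrix (Fin 2) (Fin 2) F) :
    disc m = (m 0 0 - m 1 1) ^ 2 + 4 * (m 0 1 * m 1 0) := by
  simp only [disc, Matrix.trace_fin_two, Matrix.det_fin_two]; ring

theorem disc_conj (γ g : GL (Fin 2) F) : disc (γ * g * γ⁻¹).val = disc g.val := by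
  simp only [disc, Units.val_mul, Matrix.trace_units_conj, Matrix.det_units_conj]

theorem disc_smul (c : F) (m : Matrix (Fin 2) (Fin 2) F) : disc (c • m) = c ^ 2 * disc m := by
  simp only [disc_eq, Matrix.smul_apply, smul_eq_mul]; ring

theorem val_mul_scalar (g : GL (Fin 2) F) (c : Fˣ) :
    (g * GeneralLinearGroup.scalar (Fin 2) c).val = (c : F) • g.val := by
  rw [Units.val_mul, GeneralLinearGroup.coe_scalar]
  ext i j
  simp [Matrix.mul_apply, Matrix.diagonal, mul_comm]

theorem uni_val (t : F) : (uni t).val = !![1, t; 0, 1] := rfl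

theorem uni_add (s t : F) : uni s * uni t = uni (s + t) := by
  apply Units.ext
  simp [uni_val, add_comm]

theorem uni_inj {s t : F} (h : mk (uni s) = mk (uni t)) : s = t := by
  obtain ⟨c, hc⟩ := mk_eq_mk_iff.1 h
  have h1 := congrArg Units.val hc
  rw [val_mul_scalar] at h1
  have a := congrFun (congrFun h1 0) 0
  have b := congrFun (congrFun h1 0) 1
  simp [uni_val] at a b
  rw [a] at b
  simpa using b

theorem sum_rad [Fintype F] (γ : ProjGenLinGroup (Fin 2) F) (φ : ProjGenLinGroup (Fin 2) F → ℂ) :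
    ∑ᶠ u ∈ rad γ, φ u = ∑ t : F, φ (γ * mk (uni t) * γ⁻¹) := by
  unfold rad
  rw [finsum_mem_range, finsum_eq_sum_of_fintype]
  intro s t h
  apply uni_inj
  simpa using h

theorem closure_disc {g : GL (Fin 2) F} (h : mk g ∈ closurePts F (uni 1)) : disc g.val = 0 := by
  obtain ⟨g', hg, hp⟩ := h
  obtain ⟨c, rfl⟩ := mk_eq_mk_iff.1 hg
  rw [val_mul_scalar, disc_smul]
  have := hp ((MvPolynomial.X (0, 0) - MvPolynomial.X (1, 1)) ^ 2
    + 4 * (MvPolynomial.X (0, 1) * MvPolynomial.X (1, 0))) (by
      rintro m ⟨c, γ, rfl⟩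
      have h0 : disc ((c : AlgebraicClosure F) • (γ * uni 1 * γ⁻¹).val) = 0 := by
        rw [disc_smul, disc_conj, disc_eq]
        simp [uni_val]
      rw [disc_eq] at h0
      simpa using h0)
  have h2 : algebraMap F (AlgebraicClosure F) (disc g'.val) = 0 := by
    rw [disc_eq]
    simpa [map_ofNat] using this
  rw [(map_eq_zero _).1 h2, mul_zero]

theorem mem_closure_of_conj (g γ : GL (Fin 2) F) (c : F) (hc : c ≠ 0)
    (h : g.val * γ.val = c • (γ.val * (uni 1).val)) : mk g ∈ closurePts F (uni 1) := by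
  refine ⟨g, rfl, fun p hp => ?_⟩
  let φ := algebraMap F (AlgebraicClosure F)
  have := hp (g.val.map φ) ⟨Units.mk0 (φ c) (by simpa using hc),
    GeneralLinearGroup.map φ γ, ?_⟩
  · simpa using this
  · have h1 : g.val = c • (γ * uni 1 * γ⁻¹).val := by
      rw [Units.val_mul, Units.val_mul, ← Matrix.smul_mul, ← h, Matrix.mul_assoc, Units.mul_inv,
        Matrix.mul_one]
    have h2 : (uni 1 : GL (Fin 2) (AlgebraicClosure F)) = GeneralLinearGroup.map φ (uni 1) := by
      apply Units.ext
      ext i j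
      fin_cases i <;> fin_cases j <;> simp [uni_val]
    rw [h2, ← map_inv, ← map_mul, ← map_mul, h1]
    ext i j
    simp only [Matrix.map_apply, Matrix.smul_apply, smul_eq_mul, map_mul φ, Units.val_mk0]
    rfl

variable [Fintype F] [DecidableEq F]

def eta (γ : GL (Fin 2) F) : ℤ := quadraticChar F γ.val.det

theorem eta_mul (a b : GL (Fin 2) F) : eta (a * b) = eta a * eta b := by
  unfold eta
  rw [Units.val_mul, Matrix.det_mul, map_mul]

def w0 : GL (Fin 2) F :=
  ⟨!![0, 1; -1, 0], !![0, -1; 1, 0], by simp [Matrix.one_fin_two], by simp [Matrix.one_fin_two]⟩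

open Classical in
noncomputable def hh (y : ProjGenLinGroup (Fin 2) F) : ℤ :=
  ∑ γ : GL (Fin 2) F, ∑ t : F, if y = mk γ * mk (w0 * uni t) * (mk γ)⁻¹ then eta γ else 0

theorem hh_conj (δ : GL (Fin 2) F) (y : ProjGenLinGroup (Fin 2) F) :
    hh (mk δ * y * (mk δ)⁻¹) = eta δ * hh y := by
  unfold hh
  rw [← Equiv.sum_comp (Equiv.mulLeft δ), Finset.mul_sum]
  refine Finset.sum_congr rfl fun γ _ => ?_
  rw [Finset.mul_sum]
  refine Finset.sum_congr rfl fun t _ => ?_
  have : (mk δ * y * (mk δ)⁻¹ = mk (Equiv.mulLeft δ γ) * mk (w0 * uni t) * (mk (Equiv.mulLeft δ γ))⁻¹)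
      ↔ y = mk γ * mk (w0 * uni t) * (mk γ)⁻¹ := by
    simp only [Equiv.coe_mulLeft, map_mul]
    constructor
    · intro h
      have : y = (mk δ)⁻¹ * (mk δ * y * (mk δ)⁻¹) * mk δ := by group
      rw [this, h]; group
    · intro h
      rw [h]; group
  by_cases h : y = mk γ * mk (w0 * uni t) * (mk γ)⁻¹
  · rw [if_pos h, if_pos (this.2 h), Equiv.coe_mulLeft, eta_mul]
  · rw [if_neg h, if_neg (fun h' => h (this.1 h')), mul_zero]

theorem hh_zero_of_comm (g δ : GL (Fin 2) F) (h : δ.val * g.val = g.val * δ.val)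
    (hδ : eta δ = -1) : hh (mk g) = 0 := by
  have h1 := hh_conj δ (mk g)
  have h2 : δ * g = g * δ := Units.ext h
  rw [← map_inv, ← map_mul, ← map_mul, h2, mul_inv_cancel_right, hδ] at h1
  omega

theorem orth (φ : ProjGenLinGroup (Fin 2) F → ℂ) (hφ : Cuspidal φ)
    [Fintype (ProjGenLinGroup (Fin 2) F)] : ∑ y, (hh y : ℂ) * φ y = 0 := by
  classical
  unfold hh
  simp only [Int.cast_sum, Finset.sum_mul]
  rw [Finset.sum_comm]
  refine Finset.sum_eq_zero fun γ _ => ?_
  rw [Finset.sum_comm]
  have h1 := hφ (mk γ * mk w0 * (mk γ)⁻¹) (mk γ)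
  rw [sum_rad (mk γ) (fun u => φ (mk γ * mk w0 * (mk γ)⁻¹ * u))] at h1
  have : ∀ t : F, ∑ y, ((if y = mk γ * mk (w0 * uni t) * (mk γ)⁻¹ then eta γ else 0 : ℤ) : ℂ) * φ y
      = (eta γ : ℂ) * φ (mk γ * mk w0 * (mk γ)⁻¹ * (mk γ * mk (uni t) * (mk γ)⁻¹)) := by
    intro t
    rw [Finset.sum_eq_single (mk γ * mk (w0 * uni t) * (mk γ)⁻¹)]
    · rw [if_pos rfl, map_mul]
      congr 2
      group
    · intro b _ hb
      rw [if_neg hb]; simp
    · simp
  simp only [this]
  rw [← Finset.mul_sum, h1, mul_zero]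

theorem hh_pos (hm : IsSquare (-1 : F)) : 0 < hh (mk (w0 * uni (2 : F))) := by
  classical
  have key : ∀ (γ : GL (Fin 2) F) (t : F),
      mk (w0 * uni (2 : F)) = mk γ * mk (w0 * uni t) * (mk γ)⁻¹ → eta γ = 1 := by
    intro γ t h
    have h' : mk (w0 * uni (2 : F) * γ) = mk (γ * (w0 * uni t)) := by
      rw [map_mul, h, map_mul mk γ]; group
    obtain ⟨c, hc⟩ := mk_eq_mk_iff.1 h'
    have h1 := congrArg Units.val hc
    rw [val_mul_scalar] at h1
    have hdet : γ.val.det ≠ 0 := by
      have := γ.isUnit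
      rw [Matrix.isUnit_iff_isUnit_det] at this
      exact this.ne_zero
    have e00 := congrFun (congrFun h1 0) 0
    have e01 := congrFun (congrFun h1 0) 1
    have e10 := congrFun (congrFun h1 1) 0
    have e11 := congrFun (congrFun h1 1) 1
    simp [w0, uni_val, Matrix.mul_apply, Fin.sum_univ_two, Matrix.vecMul, dotProduct] at e00 e01 e10 e11
    unfold eta
    rw [quadraticChar_one_iff_isSquare hdet]
    rw [Matrix.det_fin_two] at hdet ⊢
    generalize γ.val 0 0 = a at *
    generalize γ.val 0 1 = b at *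
    generalize γ.val 1 0 = c' at *
    generalize γ.val 1 1 = d at *
    generalize (c : F) = m at *
    have hm2 : (m - 1) * (m + 1) * (a * d - b * c') = 0 := by
      linear_combination (m * (-b + -(2 * d))) * e00 + (-b) * e11
        - (m * (-a + -(2 * c'))) * e01 - (a + -(b * t)) * e10
    rcases mul_eq_zero.1 hm2 with h3 | h3
    · rcases mul_eq_zero.1 h3 with h4 | h4
      · have h5 : m = 1 := by linear_combination h4
        subst h5
        exact ⟨a - b, by linear_combination a * e10 + (2 * a - b) * e00⟩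
      · have h5 : m = -1 := by linear_combination h4
        subst h5
        obtain ⟨i, hi⟩ := hm
        exact ⟨i * (a + b), by linear_combination a * e10 + (2 * a + b) * e00 + (a + b) ^ 2 * hi⟩
    · exact absurd h3 hdet
  unfold hh
  apply Finset.sum_pos'
  · intro γ _
    apply Finset.sum_nonneg
    intro t _
    split_ifs with h
    · rw [key γ t h]; norm_num
    · rfl
  · refine ⟨1, Finset.mem_univ _, ?_⟩
    apply Finset.sum_pos'
    · intro t _
      split_ifs with h
      · rw [key 1 t h]; norm_num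
      · rfl
    · refine ⟨2, Finset.mem_univ _, ?_⟩
      rw [if_pos (by simp)]
      simp [eta]

theorem support (h2 : (2 : F) ≠ 0) (hodd : Fintype.card F % 2 = 1) (n : F) (hn0 : n ≠ 0)
    (hn : quadraticChar F n = -1) (g : GL (Fin 2) F) (hg : hh (mk g) ≠ 0) :
    mk g ∈ closurePts F (uni 1) := by
  have hdet : g.val.det ≠ 0 := by
    have := g.isUnit
    rw [Matrix.isUnit_iff_isUnit_det] at this
    exact this.ne_zero
  rw [Matrix.det_fin_two] at hdet
  have hg' : g.val = !![g.val 0 0, g.val 0 1; g.val 1 0, g.val 1 1] := Matrix.eta_fin_two _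
  generalize g.val 0 0 = a at *
  generalize g.val 0 1 = b at *
  generalize g.val 1 0 = c at *
  generalize g.val 1 1 = d at *
  by_cases hD : (a - d) ^ 2 + 4 * (b * c) = 0
  · have had : a + d ≠ 0 := by
      intro h
      apply hdet
      have : (2 * 2) * (a * d - b * c) = 0 := by
        linear_combination (a + d) * h - hD
      rcases mul_eq_zero.1 this with h' | h'
      · exact absurd h' (mul_ne_zero h2 h2)
      · exact h'
    by_cases hb : b = 0
    · have had2 : a = d := by
        rw [hb] at hD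
        have : (a - d) ^ 2 = 0 := by linear_combination hD
        exact sub_eq_zero.1 (pow_eq_zero_iff (two_ne_zero) |>.1 this)
      subst had2
      subst hb
      have ha : a ≠ 0 := by
        intro h; apply hdet; simp [h]
      by_cases hc : c = 0
      · exfalso
        apply hg
        apply hh_zero_of_comm g (GeneralLinearGroup.mkOfDetNeZero !![n, 0; 0, 1] (by simpa using hn0))
        · rw [hg', hc]
          simp [mul_comm]
        · simpa [eta] using hn
      · apply mem_closure_of_conj g (GeneralLinearGroup.mkOfDetNeZero !![0, a; c, 0]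
          (by simp [ha, hc])) a ha
        rw [hg']
        ext i j
        fin_cases i <;> fin_cases j <;> simp [uni_val] <;> ring
    · apply mem_closure_of_conj g (GeneralLinearGroup.mkOfDetNeZero !![2 * b, 0; d - a, a + d]
          (by simp [had, hb, h2])) ((a + d) / 2) (div_ne_zero had h2)
      rw [hg']
      ext i j
      fin_cases i <;> fin_cases j <;> simp [uni_val] <;> field_simp
      · ring
      · linear_combination hD
      · ring
  · exfalso
    apply hg
    obtain ⟨X, Y, hXY⟩ := FiniteField.exists_root_sum_quadratic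
      (f := Polynomial.X ^ 2 - Polynomial.C (4 * n))
      (g := Polynomial.C (-((a - d) ^ 2 + 4 * (b * c))) * Polynomial.X ^ 2)
      (Polynomial.degree_X_pow_sub_C (by norm_num) _)
      (Polynomial.degree_C_mul_X_pow _ (neg_ne_zero.2 hD)) hodd
    simp only [Polynomial.eval_sub, Polynomial.eval_pow, Polynomial.eval_X, Polynomial.eval_C,
      Polynomial.eval_mul] at hXY
    have hdd : (!![(X - Y * (a + d)) / 2 + Y * a, Y * b; Y * c, (X - Y * (a + d)) / 2 + Y * d] :
        Matrix (Fin 2) (Fin 2) F).det = n := by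
      rw [Matrix.det_fin_two_of]
      field_simp
      linear_combination hXY
    apply hh_zero_of_comm g (GeneralLinearGroup.mkOfDetNeZero _ (hdd ▸ hn0))
    · rw [hg']
      ext i j
      fin_cases i <;> fin_cases j <;> simp <;> ring
    · unfold eta
      rw [GeneralLinearGroup.val_mkOfDetNeZero, hdd, hn]

theorem sum_uni (n : F) (hn0 : n ≠ 0) (hn : quadraticChar F n = -1) :
    ∑ t : F, hh (mk (uni t)) = 0 := by
  let δ : GL (Fin 2) F := GeneralLinearGroup.mkOfDetNeZero !![n, 0; 0, 1] (by simpa using hn0)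
  have hδ : eta δ = -1 := by simpa [eta, δ] using hn
  have h1 : ∀ t : F, hh (mk (uni (n * t))) = - hh (mk (uni t)) := by
    intro t
    have h2 : δ * uni t = uni (n * t) * δ := by
      apply Units.ext
      simp [δ, uni_val]
    have := hh_conj δ (mk (uni t))
    rw [← map_inv, ← map_mul, ← map_mul, h2, mul_inv_cancel_right, hδ] at this
    omega
  have h3 := Equiv.sum_comp (Equiv.mulLeft₀ n hn0) (fun t => hh (mk (uni t)))
  simp only [Equiv.mulLeft₀_apply, h1, Finset.sum_neg_distrib] at h3
  omega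

theorem weak (h2 : (2 : F) ≠ 0) (n : F) (hn0 : n ≠ 0) (hn : quadraticChar F n = -1) :
    WeakCusp (closurePts F (uni 1)) (fun y => (hh y : ℂ)) := by
  intro g γ hU
  obtain ⟨γ0, rfl⟩ := mk_surjective γ
  obtain ⟨g0, hg0⟩ := mk_surjective ((mk γ0)⁻¹ * g * mk γ0)
  have hg : g = mk γ0 * mk g0 * (mk γ0)⁻¹ := by rw [hg0]; group
  subst hg
  have hprod : ∀ t : F, mk γ0 * mk g0 * (mk γ0)⁻¹ * (mk γ0 * mk (uni t) * (mk γ0)⁻¹)
      = mk γ0 * mk (g0 * uni t) * (mk γ0)⁻¹ := by
    intro t; rw [map_mul]; group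
  have hd : ∀ t : F, disc (g0 * uni t).val = 0 := by
    intro t
    have := hU _ ⟨t, rfl⟩
    simp only [] at this
    rw [hprod, ← map_inv, ← map_mul, ← map_mul] at this
    rw [← disc_conj γ0]
    exact closure_disc this
  have hdet : g0.val.det ≠ 0 := by
    have := g0.isUnit
    rw [Matrix.isUnit_iff_isUnit_det] at this
    exact this.ne_zero
  rw [Matrix.det_fin_two] at hdet
  have hg' : g0.val = !![g0.val 0 0, g0.val 0 1; g0.val 1 0, g0.val 1 1] := Matrix.eta_fin_two _
  generalize g0.val 0 0 = a at *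
  generalize g0.val 0 1 = b at *
  generalize g0.val 1 0 = c at *
  generalize g0.val 1 1 = d at *
  have hd' : ∀ t : F, (a - (c * t + d)) ^ 2 + 4 * ((a * t + b) * c) = 0 := by
    intro t
    have := hd t
    rw [disc_eq, Units.val_mul, hg'] at this
    simpa [uni_val] using this
  have hc : c = 0 := by
    have : 2 * c ^ 2 = 0 := by linear_combination hd' 1 + hd' (-1) - 2 * hd' 0
    rcases mul_eq_zero.1 this with h | h
    · exact absurd h h2
    · exact pow_eq_zero_iff (two_ne_zero) |>.1 h
  subst hc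
  have had : a = d := by
    have : (a - d) ^ 2 = 0 := by linear_combination hd' 0
    exact sub_eq_zero.1 (pow_eq_zero_iff (two_ne_zero) |>.1 this)
  subst had
  have ha : a ≠ 0 := by
    intro h; apply hdet; simp [h]
  have hmk : mk g0 = mk (uni (b / a)) := by
    symm
    refine mk_eq_mk_iff.2 ⟨Units.mk0 a ha, Units.ext ?_⟩
    rw [val_mul_scalar, hg']
    ext i j
    fin_cases i <;> fin_cases j <;> simp [uni_val]
    field_simp
  rw [sum_rad (mk γ0) (fun u => (hh (mk γ0 * mk g0 * (mk γ0)⁻¹ * u) : ℂ))]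
  have : ∀ t : F, hh (mk γ0 * mk g0 * (mk γ0)⁻¹ * (mk γ0 * mk (uni t) * (mk γ0)⁻¹))
      = eta γ0 * hh (mk (uni (b / a + t))) := by
    intro t
    rw [hprod, hh_conj, map_mul, hmk, ← map_mul, uni_add]
  simp only [this]
  have h3 := Equiv.sum_comp (Equiv.addLeft (b / a)) (fun t => hh (mk (uni t)))
  rw [sum_uni n hn0 hn] at h3
  simp only [Equiv.coe_addLeft] at h3
  rw [← Int.cast_sum, ← Finset.mul_sum, h3]
  simp

end

/-- For every finite field F with 1 mod 4 elements, the group PGL2 and the regular unipotent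
class: some function in S_w of the closure is not the restriction of a cuspidal function. -/
theorem result (F : Type) [Field F] [Fintype F] (hq : Fintype.card F % 4 = 1) :
    ∃ f : ProjGenLinGroup (Fin 2) F → ℂ, WeakCusp (closurePts F (uni 1)) f ∧
      ¬ ∃ φ : ProjGenLinGroup (Fin 2) F → ℂ, Cuspidal φ ∧
        ∀ y ∈ closurePts F (uni 1), φ y = f y := by
  classical
  have hodd : Fintype.card F % 2 = 1 := by omega
  have hch : ringChar F ≠ 2 := by
    rw [Ne, FiniteField.even_card_iff_char_two]; omega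
  have h2 : (2 : F) ≠ 0 := Ring.two_ne_zero hch
  have hm : IsSquare (-1 : F) := by
    rw [FiniteField.isSquare_neg_one_iff]; omega
  obtain ⟨n, hn⟩ := quadraticChar_exists_neg_one hch
  have hn0 : n ≠ 0 := by
    rintro rfl
    simp at hn
  refine ⟨fun y => (hh y : ℂ), weak h2 n hn0 hn, ?_⟩
  rintro ⟨φ, hφ, hres⟩
  have : Finite (ProjGenLinGroup (Fin 2) F) := Finite.of_surjective _ mk_surjective
  let _ : Fintype (ProjGenLinGroup (Fin 2) F) := Fintype.ofFinite _
  have h1 := orth φ hφ
  have h3 : ∀ y : ProjGenLinGroup (Fin 2) F, (hh y : ℂ) * φ y = ((hh y * hh y : ℤ) : ℂ) := by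
    intro y
    by_cases hy : hh y = 0
    · simp [hy]
    · obtain ⟨g, rfl⟩ := mk_surjective y
      rw [hres _ (support h2 hodd n hn0 hn g hy)]
      simp
  simp only [h3] at h1
  rw [← Int.cast_sum, Int.cast_eq_zero, Finset.sum_eq_zero_iff_of_nonneg
    (fun y _ => mul_self_nonneg _)] at h1
  have h4 := h1 (mk (w0 * uni (2 : F))) (Finset.mem_univ _)
  have h5 := hh_pos hm
  nlinarith

end Pool.Agent.Results.MP_21a573_al.PGL2
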